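import Pool.Agent.L0h98.GS.Def

set_option autoImplicit false

/-! Configurations without short closed trails give simple graphs of large girth (GIR). -/

namespace Pool.Agent.L0h85.GS

open Finset Classical
open Pool.Agent.L0h98.GS
open Pool.Agent.N404.LF (cnt)

variable {V : Type} {m : ℕ}

theorem fl_fl (x : Hf m) : fl (fl x) = x := by
  simp [fl]

theorem fl_ne (x : Hf m) : fl x ≠ x := by
  intro h
  have := congrArg Prod.snd h
  simp [fl] at this

theorem fl_fst (x : Hf m) : (fl x).1 = x.1 := rfl

theorem eq_or_fl {x y : Hf m} (h : x.1 = y.1) : x = y ∨ x = fl y := by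
  rcases x with ⟨i, b⟩
  rcases y with ⟨j, c⟩
  simp only at h
  subst h
  cases b <;> cases c <;> simp [fl]

theorem edge_eq (a : Hf m → V) (π : Equiv.Perm (Hf m)) (x : Hf m) :
    s(a (π (x.1, false)), a (π (x.1, true))) = s(a (π x), a (π (fl x))) := by
  rcases x with ⟨i, b⟩
  cases b
  · rfl
  · exact Sym2.eq_swap

theorem cg_adj (a : Hf m → V) (π : Equiv.Perm (Hf m)) (u v : V) :
    (Cg a π).Adj u v ↔ u ≠ v ∧ ∃ x, a (π x) = u ∧ a (π (fl x)) = v := by
  unfold Cg
  rw [SimpleGraph.fromRel_adj]
  refine and_congr_right fun _ => ?_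
  constructor
  · rintro (⟨i, h1, h2⟩ | ⟨i, h1, h2⟩)
    · exact ⟨(i, false), h1.symm, h2.symm⟩
    · exact ⟨(i, true), h2.symm, h1.symm⟩
  · rintro ⟨⟨i, b⟩, h1, h2⟩
    cases b
    · exact Or.inl ⟨i, h1.symm, h2.symm⟩
    · exact Or.inr ⟨i, h2.symm, h1.symm⟩

theorem sim_iff (a : Hf m → V) (π : Equiv.Perm (Hf m)) :
    Sim a π ↔ (∀ x, a (π x) ≠ a (π (fl x))) ∧
      ∀ x y, a (π x) = a (π y) → a (π (fl x)) = a (π (fl y)) → x = y := by
  constructor
  · rintro ⟨h1, h2⟩
    have h3 : ∀ x, a (π x) ≠ a (π (fl x)) := by
      rintro ⟨i, b⟩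
      cases b
      · exact h1 i
      · exact (h1 i).symm
    refine ⟨h3, fun x y hx hy => ?_⟩
    have h4 : x.1 = y.1 := by
      apply h2
      show s(a (π (x.1, false)), a (π (x.1, true))) = s(a (π (y.1, false)), a (π (y.1, true)))
      rw [edge_eq, edge_eq, hx, hy]
    rcases eq_or_fl h4 with h | h
    · exact h
    · exfalso
      rw [h, fl_fl] at hy
      exact h3 y hy
  · rintro ⟨h1, h2⟩
    refine ⟨fun i => h1 (i, false), fun i j h => ?_⟩
    have h' : s(a (π (i, false)), a (π (i, true))) = s(a (π (j, false)), a (π (j, true))) := h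
    rw [Sym2.eq_iff] at h'
    rcases h' with ⟨h3, h4⟩ | ⟨h3, h4⟩
    · exact congrArg Prod.fst (h2 (i, false) (j, false) h3 h4)
    · exact congrArg Prod.fst (h2 (i, false) (j, true) h3 h4)

theorem chain_closed {G : SimpleGraph V} {u w : V} (p : G.Walk u w) :
    ∀ d d' : G.Dart, d.snd = u → d'.fst = w →
      List.IsChain G.DartAdj (d :: (p.darts ++ [d'])) := by
  induction p with
  | nil =>
    intro d d' h1 h2
    simp only [SimpleGraph.Walk.darts_nil, List.nil_append, List.isChain_cons_cons,
      List.isChain_singleton, and_true]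
    exact h1.trans h2.symm
  | cons h p ih =>
    intro d d' h1 h2
    rw [SimpleGraph.Walk.darts_cons, List.cons_append, List.isChain_cons_cons]
    exact ⟨h1, ih _ d' rfl h2⟩

theorem t_GIR : S_GIR := by
  intro V m a π g hg hb
  refine ⟨?_, ?_⟩
  · rw [sim_iff]
    have h1 : ∀ x : Hf m, a (π x) ≠ a (π (fl x)) := by
      intro x hx
      apply hb x.1
      refine ⟨x.2, [], by simp; omega, by simp, ?_⟩
      simp only [List.nil_append, List.isChain_cons_cons, List.isChain_singleton, and_true]
      exact hx.symm
    refine ⟨h1, fun x y hx hy => ?_⟩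
    by_contra hne
    have hne2 : x.1 ≠ y.1 := by
      intro h
      rcases eq_or_fl h with h | h
      · exact hne h
      · apply h1 x
        rw [hx, h, fl_fl]
    apply hb x.1
    refine ⟨x.2, [fl y], by simp; omega, ?_, ?_⟩
    · simp only [List.map_cons, List.map_nil, fl_fst, List.nodup_cons, List.mem_singleton,
        List.not_mem_nil, not_false_eq_true, List.nodup_nil, and_self, and_true]
      exact hne2
    · simp only [List.cons_append, List.nil_append, List.isChain_cons_cons,
        List.isChain_singleton, and_true]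
      refine ⟨hy, ?_⟩
      unfold Lk
      rw [fl_fl]
      exact hx.symm
  · intro v c hc
    by_contra hlt
    push Not at hlt
    have hX : ∀ d : (Cg a π).Dart, ∃ x : Hf m, a (π x) = d.fst ∧ a (π (fl x)) = d.snd :=
      fun d => ((cg_adj a π _ _).1 d.adj).2
    choose X hX1 hX2 using hX
    cases c with
    | nil => exact hc.ne_nil rfl
    | @cons _ u' _ h p =>
      have hnd := hc.edges_nodup
      rw [SimpleGraph.Walk.edges_cons] at hnd
      set d0 : (Cg a π).Dart := ⟨(v, _), h⟩ with hd0
      apply hb (X d0).1
      refine ⟨(X d0).2, p.darts.map X, ?_, ?_, ?_⟩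
      · rw [List.length_map, SimpleGraph.Walk.length_darts]
        rw [SimpleGraph.Walk.length_cons] at hlt
        omega
      · let F : Fin m → Sym2 V := fun i => s(a (π (i, false)), a (π (i, true)))
        have hF : ∀ d : (Cg a π).Dart, F (X d).1 = d.edge := by
          intro d
          show s(a (π ((X d).1, false)), a (π ((X d).1, true))) = d.edge
          rw [edge_eq, hX1, hX2]
          rfl
        apply List.Nodup.of_map F
        have : List.map F ((X d0).1 :: List.map Prod.fst (List.map X p.darts)) =
            s(v, u') :: p.edges := by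
          rw [List.map_cons, hF, List.map_map, List.map_map, SimpleGraph.Walk.edges]
          congr 1
          apply List.map_congr_left
          intro d _
          exact hF d
        rw [this]
        exact hnd
      · have h1 := chain_closed p d0 d0 rfl rfl
        have h2 : List.IsChain (Lk a π) ((d0 :: (p.darts ++ [d0])).map X) := by
          rw [List.isChain_map]
          refine h1.imp fun d d' hdd => ?_
          unfold Lk
          rw [hX2, hX1]
          exact hdd
        simpa using h2

end Pool.Agent.L0h85.GS
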