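import Pool.Agent.L0h85.GS.Gir

set_option autoImplicit false

/-! Every simple graph with the given degrees comes from the same number of configurations
(CONF). -/

namespace Pool.Agent.L0h85.GS

open Finset Classical
open Pool.Agent.L0h98.GS
open Pool.Agent.N404.LF (cnt)

variable {V : Type} {m : ℕ}

/-- Two maps with the same fibre sizes differ by a permutation. -/
theorem exists_perm {X : Type} [Fintype X] (f g : X → V) (h : ∀ v, cnt f v = cnt g v) :
    ∃ π : Equiv.Perm X, ∀ x, g (π x) = f x := by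
  have h1 : ∀ v, Nonempty ({x // f x = v} ≃ {x // g x = v}) := by
    intro v
    rw [← Fintype.card_eq]
    have := h v
    unfold cnt at this
    rw [Fintype.card_subtype, Fintype.card_subtype]
    convert this
  exact ⟨Equiv.ofFiberEquiv fun v => (h1 v).some, fun x => Equiv.ofFiberEquiv_map _ x⟩

theorem deg_card [Fintype V] (a : Hf m → V) (π : Equiv.Perm (Hf m)) (h : Sim a π) (v : V) :
    ((Cg a π).neighborSet v).ncard = cnt a v := by
  obtain ⟨h1, h2⟩ := (sim_iff a π).1 h
  have h3 : (Cg a π).neighborSet v =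
      ((univ.filter fun x : Hf m => a (π x) = v).image fun x => a (π (fl x)) : Finset V) := by
    ext u
    simp only [SimpleGraph.mem_neighborSet, cg_adj, coe_image, Set.mem_image, coe_filter,
      mem_univ, true_and]
    constructor
    · rintro ⟨_, x, hx, hy⟩
      exact ⟨x, hx, hy⟩
    · rintro ⟨x, hx, hy⟩
      have hx' : a (π x) = v := hx
      refine ⟨?_, x, hx', hy⟩
      rw [← hx', ← hy]
      exact h1 x
  rw [h3, Set.ncard_coe_finset, card_image_of_injOn]
  · unfold cnt
    refine Finset.card_equiv π fun x => ?_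
    simp
  · intro x hx y hy hxy
    simp only [coe_filter, mem_univ, true_and, Set.mem_ofPred_eq] at hx hy
    exact h2 x y (hx.trans hy.symm) hxy

theorem edge_card (a : Hf m → V) (π : Equiv.Perm (Hf m)) (h : Sim a π) :
    Nat.card (Cg a π).edgeSet = m := by
  have h0 := h.2
  obtain ⟨h1, h2⟩ := (sim_iff a π).1 h
  have key : Function.Bijective (fun i : Fin m =>
      (⟨s(a (π (i, false)), a (π (i, true))), by
        rw [SimpleGraph.mem_edgeSet, cg_adj]
        exact ⟨h1 (i, false), (i, false), rfl, rfl⟩⟩ : (Cg a π).edgeSet)) := by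
    constructor
    · intro i j hij
      exact h0 (congrArg Subtype.val hij)
    · rintro ⟨e, he⟩
      induction e using Sym2.ind with
      | _ u v =>
        rw [SimpleGraph.mem_edgeSet, cg_adj] at he
        obtain ⟨_, x, hx, hy⟩ := he
        refine ⟨x.1, Subtype.ext ?_⟩
        show s(a (π (x.1, false)), a (π (x.1, true))) = s(u, v)
        rw [edge_eq, hx, hy]
  rw [← Nat.card_congr (Equiv.ofBijective _ key)]
  simp

theorem exists_conf [Fintype V] (a : Hf m → V) (G : SimpleGraph V)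
    (hG : ∀ v, (G.neighborSet v).ncard = cnt a v) :
    ∃ π : Equiv.Perm (Hf m), Sim a π ∧ Cg a π = G := by
  have hdeg : ∀ v, G.degree v = cnt a v := by
    intro v
    rw [← hG v, ← SimpleGraph.card_neighborSet_eq_degree, ← Nat.card_eq_fintype_card]
    rfl
  have hE : G.edgeFinset.card = m := by
    have h1 := G.sum_degrees_eq_twice_card_edges
    have h2 : ∑ v, cnt a v = Fintype.card (Hf m) := by
      unfold cnt
      have := Finset.card_eq_sum_card_fiberwise (f := a) (s := univ) (t := univ)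
        (fun _ _ => mem_univ _)
      rw [card_univ] at this
      rw [this]
    simp only [hdeg] at h1
    rw [h2] at h1
    simp only [Fintype.card_prod, Fintype.card_fin, Fintype.card_bool] at h1
    omega
  have hE2 : Fintype.card (Fin m) = Fintype.card G.edgeSet := by
    rw [Fintype.card_fin, ← SimpleGraph.edgeFinset_card, hE]
  obtain ⟨e⟩ := Fintype.card_eq.1 hE2
  have hd : ∀ i : Fin m, ∃ d : G.Dart, d.edge = (e i).1 := by
    intro i
    rcases e i with ⟨s, hs⟩
    induction s using Sym2.ind with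
    | _ u v => exact ⟨⟨(u, v), hs⟩, rfl⟩
  choose d hd using hd
  let D : Hf m → G.Dart := fun x => if x.2 then (d x.1).symm else d x.1
  have hDe : ∀ x, (D x).edge = (e x.1).1 := by
    rintro ⟨i, b⟩
    cases b
    · exact hd i
    · exact (SimpleGraph.Dart.edge_symm _).trans (hd i)
  have hDf : ∀ x, D (fl x) = (D x).symm := by
    rintro ⟨i, b⟩
    cases b
    · rfl
    · exact (SimpleGraph.Dart.symm_symm _).symm
  have hDinj : Function.Injective D := by
    intro x y hxy
    have h1 : x.1 = y.1 := by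
      apply e.injective
      apply Subtype.ext
      rw [← hDe, ← hDe, hxy]
    rcases eq_or_fl h1 with h | h
    · exact h
    · exfalso
      rw [h, hDf] at hxy
      exact SimpleGraph.Dart.symm_ne _ hxy
  have hDsurj : Function.Surjective D := by
    intro d'
    have h1 : ∃ i, (e i).1 = d'.edge := ⟨e.symm ⟨d'.edge, d'.edge_mem⟩, by simp⟩
    obtain ⟨i, hi⟩ := h1
    have h2 : (D (i, false)).edge = d'.edge := (hDe (i, false)).trans hi
    rcases (SimpleGraph.dart_edge_eq_iff _ _).1 h2 with h | h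
    · exact ⟨_, h⟩
    · refine ⟨fl (i, false), ?_⟩
      rw [hDf, h, SimpleGraph.Dart.symm_symm]
  have hcnt : ∀ v, cnt (fun x => (D x).fst) v = cnt a v := by
    intro v
    rw [← hdeg v, ← SimpleGraph.dart_fst_fiber_card_eq_degree]
    unfold cnt
    refine Finset.card_equiv (Equiv.ofBijective D ⟨hDinj, hDsurj⟩) fun x => ?_
    simp only [mem_filter, mem_univ, true_and]
    rfl
  obtain ⟨π, hπ⟩ := exists_perm (fun x => (D x).fst) a hcnt
  have hπ2 : ∀ x, a (π (fl x)) = (D x).snd := by
    intro x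
    rw [hπ, hDf]
    rfl
  refine ⟨π, (sim_iff a π).2 ⟨fun x => ?_, fun x y hx hy => ?_⟩, ?_⟩
  · rw [hπ2, hπ]
    exact (D x).fst_ne_snd
  · rw [hπ2, hπ2] at hy
    rw [hπ, hπ] at hx
    apply hDinj
    apply SimpleGraph.Dart.ext
    exact Prod.ext hx hy
  · ext u v
    rw [cg_adj]
    constructor
    · rintro ⟨_, x, hx, hy⟩
      rw [hπ] at hx
      rw [hπ2] at hy
      have := (D x).adj
      rw [← hx, ← hy]
      exact this
    · intro h
      refine ⟨h.ne, ?_⟩
      obtain ⟨x, hx⟩ := hDsurj ⟨(u, v), h⟩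
      refine ⟨x, ?_, ?_⟩
      · rw [hπ, hx]
      · rw [hπ2, hx]

theorem count_eq (a : Hf m → V) (π₀ : Equiv.Perm (Hf m)) (h0 : Sim a π₀) :
    (univ.filter fun π : Equiv.Perm (Hf m) => Sim a π ∧ Cg a π = Cg a π₀).card =
      (univ.filter fun θ : Equiv.Perm (Hf m) => ∀ x, a (θ x) = a x).card *
      (univ.filter fun τ : Equiv.Perm (Hf m) => ∀ x, τ (fl x) = fl (τ x)).card := by
  obtain ⟨h1, h2⟩ := (sim_iff a π₀).1 h0
  rw [← card_product]
  symm
  refine Finset.card_bij (fun p _ => p.1 * π₀ * p.2) ?_ ?_ ?_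
  · rintro ⟨θ, τ⟩ hp
    rw [mem_product, mem_filter, mem_filter] at hp
    obtain ⟨⟨_, hθ⟩, ⟨_, hτ⟩⟩ := hp
    simp only at hθ hτ
    rw [mem_filter]
    refine ⟨mem_univ _, (sim_iff _ _).2 ⟨fun x => ?_, fun x y hx hy => ?_⟩, ?_⟩
    · simp only [Equiv.Perm.mul_apply, hθ, hτ]
      exact h1 (τ x)
    · simp only [Equiv.Perm.mul_apply, hθ, hτ] at hx hy
      exact τ.injective (h2 _ _ hx hy)
    · ext u v
      rw [cg_adj, cg_adj]
      refine and_congr_right fun _ => ?_
      simp only [Equiv.Perm.mul_apply, hθ, hτ]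
      constructor
      · rintro ⟨x, hx⟩
        exact ⟨τ x, hx⟩
      · rintro ⟨x, hx⟩
        exact ⟨τ.symm x, by simpa using hx⟩
  · rintro ⟨θ, τ⟩ hp ⟨θ', τ'⟩ hp' heq
    rw [mem_product, mem_filter, mem_filter] at hp hp'
    obtain ⟨⟨_, hθ⟩, ⟨_, hτ⟩⟩ := hp
    obtain ⟨⟨_, hθ'⟩, ⟨_, hτ'⟩⟩ := hp'
    simp only at hθ hτ hθ' hτ' heq
    have hx : ∀ x, θ (π₀ (τ x)) = θ' (π₀ (τ' x)) := fun x => by
      have := congrArg (fun σ : Equiv.Perm (Hf m) => σ x) heq
      simpa [Equiv.Perm.mul_apply] using this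
    have hττ : τ = τ' := by
      ext1 x
      apply h2
      · have := congrArg a (hx x)
        rwa [hθ, hθ'] at this
      · have := congrArg a (hx (fl x))
        rw [hθ, hθ', hτ, hτ'] at this
        exact this
    subst hττ
    have hθθ : θ = θ' := by
      have := mul_right_cancel heq
      exact mul_right_cancel this
    rw [hθθ]
  · intro π hπ
    rw [mem_filter] at hπ
    obtain ⟨_, hs, hG⟩ := hπ
    obtain ⟨g1, g2⟩ := (sim_iff a π).1 hs
    have hex : ∀ x, ∃ y, a (π₀ y) = a (π x) ∧ a (π₀ (fl y)) = a (π (fl x)) := by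
      intro x
      have : (Cg a π).Adj (a (π x)) (a (π (fl x))) := (cg_adj _ _ _ _).2 ⟨g1 x, x, rfl, rfl⟩
      rw [hG, cg_adj] at this
      obtain ⟨_, y, hy1, hy2⟩ := this
      exact ⟨y, hy1, hy2⟩
    choose t ht1 ht2 using hex
    have htf : ∀ x, t (fl x) = fl (t x) := by
      intro x
      apply h2
      · rw [ht1, ht2]
      · rw [ht2, fl_fl, fl_fl, ht1]
    have htinj : Function.Injective t := by
      intro x y hxy
      apply g2
      · rw [← ht1, ← ht1, hxy]
      · rw [← ht2, ← ht2, hxy]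
    let τ : Equiv.Perm (Hf m) := Equiv.ofBijective t (Finite.injective_iff_bijective.1 htinj)
    have hτ : ∀ x, τ x = t x := fun x => rfl
    refine ⟨(π * τ⁻¹ * π₀⁻¹, τ), ?_, ?_⟩
    · rw [mem_product, mem_filter, mem_filter]
      refine ⟨⟨mem_univ _, fun x => ?_⟩, ⟨mem_univ _, fun x => htf x⟩⟩
      show a (π (τ⁻¹ (π₀⁻¹ x))) = a x
      have := ht1 (τ⁻¹ (π₀⁻¹ x))
      rw [← this, ← hτ]
      simp
    · show π * τ⁻¹ * π₀⁻¹ * π₀ * τ = π
      group

theorem t_CONF : S_CONF := by
  intro V _ m a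
  refine ⟨⟨(univ.filter fun θ : Equiv.Perm (Hf m) => ∀ x, a (θ x) = a x).card *
      (univ.filter fun τ : Equiv.Perm (Hf m) => ∀ x, τ (fl x) = fl (τ x)).card, ?_⟩, ?_⟩
  · intro G hG
    obtain ⟨π₀, hs, hc⟩ := exists_conf a G hG
    subst hc
    exact count_eq a π₀ hs
  · intro π hπ
    exact ⟨deg_card a π hπ, edge_card a π hπ⟩

end Pool.Agent.L0h85.GS
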