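import Pool.Agent.L0h98.GS.Def
import Pool.Agent.N342.LF_ISO
import Pool.Agent.N755.LF_DEG

set_option autoImplicit false

/-! ISOM and DEGM. -/

namespace Pool.Agent.L0h85.GS

open Finset Classical
open Pool.Agent.L0h98.GS
open Pool.Agent.N404.LF (cnt hd)

theorem t_DEGM : S_DEGM := by
  intro V m a π U h
  obtain ⟨c, hc⟩ := Pool.Agent.N755.LFDEG.gen (fun i : Fin m => a (π (i, false)))
    (fun i : Fin m => a (π (i, true))) U.card U rfl (fun W hW hn => h W hW hn)
  exact ⟨c, hc⟩

theorem t_ISOM : S_ISOM := by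
  intro m A t ht
  have hcard : Fintype.card (Hf m) = 2 * m := by
    simp only [Fintype.card_prod, Fintype.card_fin, Fintype.card_bool]
    ring
  let e : Hf m ≃ Fin (2 * m) := Fintype.equivFinOfCardEq hcard
  let Φ : Equiv.Perm (Hf m) ≃ (Unit → Equiv.Perm (Fin (2 * m))) :=
    (e.permCongr).trans (Equiv.funUnique Unit (Equiv.Perm (Fin (2 * m)))).symm
  have hΦ : ∀ (π : Equiv.Perm (Hf m)) (u : Unit) (x : Fin (2 * m)),
      Φ π u x = e (π (e.symm x)) := fun π u x => rfl
  have hhd : ∀ π π' : Equiv.Perm (Hf m), hd (Φ π) (Φ π') =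
      (univ.filter fun x => π x ≠ π' x).card := by
    intro π π'
    unfold hd
    refine Finset.card_equiv ((Equiv.punitProd _).trans e.symm) fun x => ?_
    simp only [mem_filter, mem_univ, true_and, hΦ, ne_eq, EmbeddingLike.apply_eq_iff_eq]
    rfl
  have h := Pool.Agent.N342.LFI.main Unit (2 * m) (A.map Φ.toEmbedding) t ht
  rw [card_map] at h
  have h2 : (univ.filter fun π : Equiv.Perm (Hf m) => ∀ π' ∈ A,
      t ≤ ((univ.filter fun x => π x ≠ π' x).card : ℝ)).card =
      (univ.filter fun π : Unit → Equiv.Perm (Fin (2 * m)) => ∀ π' ∈ A.map Φ.toEmbedding,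
        t ≤ hd π π').card := by
    refine Finset.card_equiv Φ fun π => ?_
    simp only [mem_filter, mem_univ, true_and, mem_map, Equiv.coe_toEmbedding,
      forall_exists_index, and_imp, forall_apply_eq_imp_iff₂, hhd]
  rw [h2]
  refine h.trans (le_of_eq ?_)
  simp only [Fintype.card_unit, pow_one, Nat.cast_one, mul_one, Nat.cast_mul, Nat.cast_ofNat]
  congr 4
  ring

end Pool.Agent.L0h85.GS
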